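import Pool.Agent.H14.AVS.S3
import Mathlib.LinearAlgebra.Matrix.Transvection

/-!
# AVS, module GLU: gluing at finitely many finite places
-/

set_option autoImplicit false

namespace Pool.AVS

open Polynomial Matrix Pool.AVR

namespace GLU

variable {F : Type} [Field F]

/-- The local ring as a subring. -/
def OO {P : F[X]} (hP : Irreducible P) : Subring (RatFunc F) where
  carrier := IP P
  mul_mem' := by
    intro a b ha hb h
    have h1 : P ∣ a.denom * b.denom := h.trans (RatFunc.denom_mul_dvd a b)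
    rcases hP.prime.dvd_or_dvd h1 with h2 | h2
    · exact ha h2
    · exact hb h2
  one_mem' := by
    intro h
    rw [RatFunc.denom_one] at h
    exact hP.not_isUnit (isUnit_of_dvd_one h)
  add_mem' := by
    intro a b ha hb h
    have h1 : P ∣ a.denom * b.denom := h.trans (RatFunc.denom_add_dvd a b)
    rcases hP.prime.dvd_or_dvd h1 with h2 | h2
    · exact ha h2
    · exact hb h2
  zero_mem' := by
    intro h
    rw [RatFunc.denom_zero] at h
    exact hP.not_isUnit (isUnit_of_dvd_one h)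
  neg_mem' := by
    intro a ha h
    apply ha
    have h1 : (-a).denom ∣ a.denom := by
      rw [RatFunc.denom_dvd (RatFunc.denom_ne_zero a)]
      refine ⟨-a.num, ?_⟩
      rw [map_neg, neg_div, RatFunc.num_div_denom]
    exact h.trans h1

theorem mem_OO {P : F[X]} (hP : Irreducible P) (x : RatFunc F) : x ∈ OO hP ↔ x ∈ IP P := Iff.rfl

theorem frac_mem {P : F[X]} (hP : Irreducible P) (p q : F[X]) (hq : ¬ P ∣ q) :
    (algebraMap F[X] (RatFunc F) p / algebraMap F[X] (RatFunc F) q) ∈ OO hP := by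
  intro h
  exact hq (h.trans (RatFunc.denom_div_dvd p q))

theorem pol_mem {P : F[X]} (hP : Irreducible P) (p : F[X]) :
    algebraMap F[X] (RatFunc F) p ∈ OO hP := by
  have h := frac_mem hP p 1 (fun h => hP.not_isUnit (isUnit_of_dvd_one h))
  simpa using h

theorem ne_zero' {P : F[X]} (hP : Irreducible P) : algebraMap F[X] (RatFunc F) P ≠ 0 := by
  rw [Ne, FaithfulSMul.algebraMap_eq_zero_iff]
  exact hP.ne_zero

/-- Write `x = P^n u`, `u` a unit at `P`. -/
theorem exists_unit {P : F[X]} (hP : Irreducible P) (x : RatFunc F) (hx : x ≠ 0) :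
    ∃ (n : ℤ) (u : RatFunc F), x = (algebraMap F[X] (RatFunc F) P) ^ n * u ∧ u ≠ 0 ∧
      u ∈ OO hP ∧ u⁻¹ ∈ OO hP := by
  have hP0 := ne_zero' hP
  obtain ⟨a, p, hp, h1⟩ : ∃ (a : ℕ) (p : F[X]), ¬ P ∣ p ∧ x.num = P ^ a * p := by
    obtain ⟨p, h, h'⟩ := FiniteMultiplicity.exists_eq_pow_mul_and_not_dvd
      (FiniteMultiplicity.of_prime_left hP.prime (RatFunc.num_ne_zero hx))
    exact ⟨_, p, h', h⟩
  obtain ⟨b, q, hq, h2⟩ : ∃ (b : ℕ) (q : F[X]), ¬ P ∣ q ∧ x.denom = P ^ b * q := by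
    obtain ⟨p, h, h'⟩ := FiniteMultiplicity.exists_eq_pow_mul_and_not_dvd
      (FiniteMultiplicity.of_prime_left hP.prime (RatFunc.denom_ne_zero x))
    exact ⟨_, p, h', h⟩
  have hp0 : algebraMap F[X] (RatFunc F) p ≠ 0 := by
    rw [Ne, FaithfulSMul.algebraMap_eq_zero_iff]
    rintro rfl
    exact hp (dvd_zero _)
  have hq0 : algebraMap F[X] (RatFunc F) q ≠ 0 := by
    rw [Ne, FaithfulSMul.algebraMap_eq_zero_iff]
    rintro rfl
    exact hq (dvd_zero _)
  refine ⟨(a : ℤ) - b, algebraMap F[X] (RatFunc F) p / algebraMap F[X] (RatFunc F) q, ?_,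
    div_ne_zero hp0 hq0, frac_mem hP p q hq, ?_⟩
  · conv_lhs => rw [← RatFunc.num_div_denom x, h1, h2]
    rw [map_mul, map_mul, map_pow, map_pow, zpow_sub₀ hP0, zpow_natCast, zpow_natCast]
    field_simp
  · rw [inv_div]
    exact frac_mem hP q p hp

/-- The elements regular outside `P`. -/
def RR (P : F[X]) (x : RatFunc F) : Prop :=
  ∃ (p : F[X]) (n : ℕ), x = algebraMap F[X] (RatFunc F) p / (algebraMap F[X] (RatFunc F) P) ^ n

theorem RR.mem {P Q : F[X]} (hQ : Irreducible Q) (hPQ : ¬ Q ∣ P)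
    {x : RatFunc F} (hx : RR P x) : x ∈ OO hQ := by
  obtain ⟨p, n, rfl⟩ := hx
  rw [← map_pow]
  exact frac_mem hQ _ _ (fun h => hPQ (hQ.prime.dvd_of_dvd_pow h))

theorem RR.mul {P : F[X]} (hP : Irreducible P) {x y : RatFunc F} (hx : RR P x) (hy : RR P y) :
    RR P (x * y) := by
  have hP0 := ne_zero' hP
  obtain ⟨p, n, rfl⟩ := hx
  obtain ⟨q, m, rfl⟩ := hy
  refine ⟨p * q, n + m, ?_⟩
  rw [map_mul, pow_add]
  field_simp

theorem RR.add {P : F[X]} (hP : Irreducible P) {x y : RatFunc F} (hx : RR P x) (hy : RR P y) :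
    RR P (x + y) := by
  have hP0 := ne_zero' hP
  obtain ⟨p, n, rfl⟩ := hx
  obtain ⟨q, m, rfl⟩ := hy
  refine ⟨p * P ^ m + q * P ^ n, n + m, ?_⟩
  rw [map_add, map_mul, map_mul, map_pow, map_pow, pow_add]
  field_simp

theorem RR.pol (P : F[X]) (p : F[X]) : RR P (algebraMap F[X] (RatFunc F) p) :=
  ⟨p, 0, by simp⟩

theorem RR.zpow {P : F[X]} (n : ℤ) : RR P ((algebraMap F[X] (RatFunc F) P) ^ n) := by
  rcases Int.le_total 0 n with h | h
  · obtain ⟨k, rfl⟩ := Int.eq_ofNat_of_zero_le h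
    refine ⟨P ^ k, 0, ?_⟩
    rw [map_pow]
    simp
  · obtain ⟨k, hk⟩ := Int.eq_ofNat_of_zero_le (neg_nonneg.2 h)
    refine ⟨1, k, ?_⟩
    have : n = -(k : ℤ) := by omega
    rw [this, _root_.zpow_neg, zpow_natCast, map_one, one_div]

/-- Approximation by elements regular outside `P`. -/
theorem approx {P : F[X]} (hP : Irreducible P) (x : RatFunc F) (N : ℕ) :
    ∃ x' : RatFunc F, RR P x' ∧ (x' - x) / (algebraMap F[X] (RatFunc F) P) ^ N ∈ OO hP := by
  have hP0 := ne_zero' hP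
  obtain ⟨b, q, hq, h2⟩ : ∃ (b : ℕ) (q : F[X]), ¬ P ∣ q ∧ x.denom = P ^ b * q := by
    obtain ⟨p, h, h'⟩ := FiniteMultiplicity.exists_eq_pow_mul_and_not_dvd
      (FiniteMultiplicity.of_prime_left hP.prime (RatFunc.denom_ne_zero x))
    exact ⟨_, p, h', h⟩
  have hq0 : algebraMap F[X] (RatFunc F) q ≠ 0 := by
    rw [Ne, FaithfulSMul.algebraMap_eq_zero_iff]
    rintro rfl
    exact hq (dvd_zero _)
  have hco : IsCoprime (P ^ (N + b)) q := by
    apply IsCoprime.pow_left
    exact (hP.coprime_iff_not_dvd.2 hq)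
  obtain ⟨u, v, huv⟩ := hco
  refine ⟨algebraMap F[X] (RatFunc F) (v * x.num) / (algebraMap F[X] (RatFunc F) P) ^ b,
    ⟨_, _, rfl⟩, ?_⟩
  have hx : x = algebraMap F[X] (RatFunc F) x.num /
      ((algebraMap F[X] (RatFunc F) P) ^ b * algebraMap F[X] (RatFunc F) q) := by
    conv_lhs => rw [← RatFunc.num_div_denom x, h2]
    rw [map_mul, map_pow]
  have h3 : (algebraMap F[X] (RatFunc F) (v * x.num) / (algebraMap F[X] (RatFunc F) P) ^ b - x) /
      (algebraMap F[X] (RatFunc F) P) ^ N =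
      algebraMap F[X] (RatFunc F) (-(u * x.num)) / algebraMap F[X] (RatFunc F) q := by
    have h4 : algebraMap F[X] (RatFunc F) u * algebraMap F[X] (RatFunc F) P ^ (N + b) +
        algebraMap F[X] (RatFunc F) v * algebraMap F[X] (RatFunc F) q = 1 := by
      rw [← map_pow, ← map_mul, ← map_mul, ← map_add, huv, map_one]
    rw [pow_add] at h4
    have h5 : algebraMap F[X] (RatFunc F) P ^ N ≠ 0 := pow_ne_zero _ hP0
    have h6 : algebraMap F[X] (RatFunc F) P ^ b ≠ 0 := pow_ne_zero _ hP0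
    rw [map_mul, map_neg, map_mul]
    generalize hn : algebraMap F[X] (RatFunc F) x.num = xn at hx ⊢
    rw [hx]
    field_simp
    linear_combination xn * h4
  rw [h3]
  exact frac_mem hP _ _ hq

/-- `x` is divisible by `P^N` in the local ring. -/
def dv {P : F[X]} (hP : Irreducible P) (N : ℕ) (x : RatFunc F) : Prop :=
  x / (algebraMap F[X] (RatFunc F) P) ^ N ∈ OO hP

theorem dv.add {P : F[X]} {hP : Irreducible P} {N : ℕ} {x y : RatFunc F} (hx : dv hP N x)
    (hy : dv hP N y) : dv hP N (x + y) := by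
  unfold dv at *
  rw [add_div]
  exact add_mem hx hy

theorem dv.sum {P : F[X]} {hP : Irreducible P} {N : ℕ} {ι : Type} (s : Finset ι)
    (f : ι → RatFunc F) (h : ∀ i ∈ s, dv hP N (f i)) : dv hP N (∑ i ∈ s, f i) := by
  unfold dv at *
  rw [Finset.sum_div]
  exact sum_mem h

theorem dv.mul {P : F[X]} {hP : Irreducible P} {N M : ℕ} {x y : RatFunc F} (hx : dv hP N x)
    (hy : dv hP M y) : dv hP (N + M) (x * y) := by
  unfold dv at *
  have h := mul_mem hx hy
  rwa [div_mul_div_comm, ← pow_add] at h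

theorem dv.mul_bd {P : F[X]} {hP : Irreducible P} {N c : ℕ} {x y : RatFunc F}
    (hx : dv hP (N + c) x)
    (hy : (algebraMap F[X] (RatFunc F) P) ^ c * y ∈ OO hP) : dv hP N (x * y) := by
  have hP0 := ne_zero' hP
  unfold dv at *
  have h := mul_mem hx hy
  have h1 : x / (algebraMap F[X] (RatFunc F) P) ^ (N + c) *
      ((algebraMap F[X] (RatFunc F) P) ^ c * y) =
      x * y / (algebraMap F[X] (RatFunc F) P) ^ N := by
    rw [pow_add]
    field_simp
  rwa [h1] at h

theorem dv.mono {P : F[X]} {hP : Irreducible P} {N M : ℕ} {x : RatFunc F} (h : dv hP (N + M) x) :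
    dv hP N x := by
  have h1 := dv.mul_bd (y := 1) h (by
    rw [mul_one]
    exact pow_mem (pol_mem hP P) M)
  rwa [mul_one] at h1

/-- Every entry of a matrix becomes integral after multiplication by a power of `P`. -/
theorem bound1 {P : F[X]} (hP : Irreducible P) (x : RatFunc F) :
    ∃ c : ℕ, ∀ d, c ≤ d → (algebraMap F[X] (RatFunc F) P) ^ d * x ∈ OO hP := by
  have hP0 := ne_zero' hP
  by_cases hx : x = 0
  · exact ⟨0, fun d _ => by rw [hx, mul_zero]; exact zero_mem _⟩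
  obtain ⟨n, u, h1, h2, h3, h4⟩ := exists_unit hP x hx
  refine ⟨n.natAbs, fun d hd => ?_⟩
  have h5 : ∃ k : ℕ, (d : ℤ) + n = k := Int.eq_ofNat_of_zero_le (by omega)
  obtain ⟨k, hk⟩ := h5
  have h6 : (algebraMap F[X] (RatFunc F) P) ^ d * x = (algebraMap F[X] (RatFunc F) P) ^ k * u := by
    rw [h1, ← mul_assoc, ← zpow_natCast, ← zpow_add₀ hP0, hk, zpow_natCast]
  rw [h6]
  exact mul_mem (pow_mem (pol_mem hP P) _) h3

theorem bound {P : F[X]} (hP : Irreducible P) (M : Matrix (Fin 3) (Fin 3) (RatFunc F)) :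
    ∃ c : ℕ, ∀ d, c ≤ d → ∀ i j, (algebraMap F[X] (RatFunc F) P) ^ d * M i j ∈ OO hP := by
  choose f hf using fun p : Fin 3 × Fin 3 => bound1 hP (M p.1 p.2)
  refine ⟨Finset.univ.sup f, fun d hd i j => ?_⟩
  exact hf (i, j) d ((Finset.le_sup (f := f) (Finset.mem_univ (i, j))).trans hd)

/-- Approximable by matrices of determinant `1` over `F[t][1/P]`. -/
def Ap {P : F[X]} (hP : Irreducible P) (M : Matrix (Fin 3) (Fin 3) (RatFunc F)) : Prop :=
  ∀ N : ℕ, ∃ M' : Matrix (Fin 3) (Fin 3) (RatFunc F), (∀ i j, RR P (M' i j)) ∧ M'.det = 1 ∧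
    ∀ i j, dv hP N (M' i j - M i j)

theorem Ap.mul {P : F[X]} {hP : Irreducible P} {A B : Matrix (Fin 3) (Fin 3) (RatFunc F)}
    (hA : Ap hP A) (hB : Ap hP B) : Ap hP (A * B) := by
  intro N
  obtain ⟨c, hc⟩ := bound hP A
  obtain ⟨c', hc'⟩ := bound hP B
  obtain ⟨B', hB1, hB2, hB3⟩ := hB (N + c)
  obtain ⟨A', hA1, hA2, hA3⟩ := hA (N + c')
  refine ⟨A' * B', ?_, by rw [det_mul, hA2, hB2, mul_one], ?_⟩
  · intro i j
    rw [mul_apply, Fin.sum_univ_three]
    exact ((RR.mul hP (hA1 _ _) (hB1 _ _)).add hP (RR.mul hP (hA1 _ _) (hB1 _ _))).add hP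
      (RR.mul hP (hA1 _ _) (hB1 _ _))
  · intro i j
    have h1 : (A' * B') i j - (A * B) i j =
        ∑ k, ((B' k j - B k j) * A i k + ((A' i k - A i k) * B k j +
          (A' i k - A i k) * (B' k j - B k j))) := by
      rw [mul_apply, mul_apply, ← Finset.sum_sub_distrib]
      refine Finset.sum_congr rfl fun k _ => ?_
      ring
    rw [h1]
    refine dv.sum _ _ fun k _ => ?_
    refine dv.add ?_ (dv.add ?_ ?_)
    · exact dv.mul_bd (hB3 k j) (hc c le_rfl i k)
    · exact dv.mul_bd (hA3 i k) (hc' c' le_rfl k j)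
    · have h2 : dv hP (N + (c' + (N + c))) ((A' i k - A i k) * (B' k j - B k j)) := by
        have := dv.mul (hA3 i k) (hB3 k j)
        rwa [add_assoc] at this
      exact dv.mono h2

theorem Ap.transv {P : F[X]} (hP : Irreducible P) (i j : Fin 3) (hij : i ≠ j) (c : RatFunc F) :
    Ap hP (transvection i j c) := by
  intro N
  obtain ⟨c', h1, h2⟩ := approx hP c N
  refine ⟨transvection i j c', ?_, det_transvection_of_ne i j hij c', ?_⟩
  · intro k l
    unfold transvection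
    rw [Matrix.add_apply, Matrix.single_apply, Matrix.one_apply]
    refine RR.add hP ?_ ?_
    · split_ifs
      · simpa using RR.pol P 1
      · simpa using RR.pol P 0
    · split_ifs
      · exact h1
      · simpa using RR.pol P 0
  · intro k l
    unfold transvection
    rw [Matrix.add_apply, Matrix.single_apply, Matrix.add_apply, Matrix.single_apply,
      add_sub_add_left_eq_sub]
    split_ifs
    · exact h2
    · rw [sub_zero]
      show (0 : RatFunc F) / _ ∈ OO hP
      rw [zero_div]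
      exact zero_mem _

theorem mm {K : Type} [CommRing K] (a b c d e f g h i a' b' c' d' e' f' g' h' i' : K) :
    !![a, b, c; d, e, f; g, h, i] * !![a', b', c'; d', e', f'; g', h', i'] =
    !![a*a'+b*d'+c*g', a*b'+b*e'+c*h', a*c'+b*f'+c*i';
       d*a'+e*d'+f*g', d*b'+e*e'+f*h', d*c'+e*f'+f*i';
       g*a'+h*d'+i*g', g*b'+h*e'+i*h', g*c'+h*f'+i*i'] := by
  ext i j
  fin_cases i <;> fin_cases j <;> simp [Matrix.mul_apply, Fin.sum_univ_three]

theorem L1 {K : Type} [CommRing K] (x xi : K) (h : x * xi = 1) :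
    !![1, x, 0; 0, 1, 0; 0, 0, 1] * !![1, 0, 0; -xi, 1, 0; 0, 0, 1] *
      !![1, x, 0; 0, 1, 0; 0, 0, 1] *
    (!![1, -1, 0; 0, 1, 0; 0, 0, 1] * !![1, 0, 0; 1, 1, 0; 0, 0, 1] *
      !![1, -1, 0; 0, 1, 0; 0, 0, 1])
      = !![x, 0, 0; 0, xi, 0; 0, 0, 1] := by
  simp only [mm]
  ext i j
  fin_cases i <;> fin_cases j <;> simp <;> grind

theorem L2 {K : Type} [CommRing K] (x xi : K) (h : x * xi = 1) :
    !![1, 0, 0; 0, 1, x; 0, 0, 1] * !![1, 0, 0; 0, 1, 0; 0, -xi, 1] *
      !![1, 0, 0; 0, 1, x; 0, 0, 1] *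
    (!![1, 0, 0; 0, 1, -1; 0, 0, 1] * !![1, 0, 0; 0, 1, 0; 0, 1, 1] *
      !![1, 0, 0; 0, 1, -1; 0, 0, 1])
      = !![1, 0, 0; 0, x, 0; 0, 0, xi] := by
  simp only [mm]
  ext i j
  fin_cases i <;> fin_cases j <;> simp <;> grind

theorem diag_eq (x y z : RatFunc F) (h : x * y * z = 1) :
    Matrix.diagonal ![x, y, z] =
      transvection 0 1 x * transvection 1 0 (-x⁻¹) * transvection 0 1 x *
        (transvection 0 1 (-1) * transvection 1 0 1 * transvection 0 1 (-1)) *
      (transvection 1 2 (x * y) * transvection 2 1 (-(x * y)⁻¹) * transvection 1 2 (x * y) *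
        (transvection 1 2 (-1) * transvection 2 1 1 * transvection 1 2 (-1))) := by
  have hx : x ≠ 0 := by rintro rfl; simp at h
  have hy : y ≠ 0 := by rintro rfl; simp at h
  have hz : z = (x * y)⁻¹ := by
    field_simp
    linear_combination h
  subst hz
  have h01 : ∀ c : RatFunc F, transvection (0 : Fin 3) 1 c = !![1, c, 0; 0, 1, 0; 0, 0, 1] := by
    intro c
    ext i j
    fin_cases i <;> fin_cases j <;> simp [transvection]
  have h10 : ∀ c : RatFunc F, transvection (1 : Fin 3) 0 c = !![1, 0, 0; c, 1, 0; 0, 0, 1] := by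
    intro c
    ext i j
    fin_cases i <;> fin_cases j <;> simp [transvection]
  have h12 : ∀ c : RatFunc F, transvection (1 : Fin 3) 2 c = !![1, 0, 0; 0, 1, c; 0, 0, 1] := by
    intro c
    ext i j
    fin_cases i <;> fin_cases j <;> simp [transvection]
  have h21 : ∀ c : RatFunc F, transvection (2 : Fin 3) 1 c = !![1, 0, 0; 0, 1, 0; 0, c, 1] := by
    intro c
    ext i j
    fin_cases i <;> fin_cases j <;> simp [transvection]
  simp only [h01, h10, h12, h21]
  rw [L1 x x⁻¹ (mul_inv_cancel₀ hx), L2 (x * y) (x * y)⁻¹ (mul_inv_cancel₀ (mul_ne_zero hx hy)),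
    mm]
  ext i j
  fin_cases i <;> fin_cases j <;> simp [Matrix.diagonal]
  rw [← mul_assoc, inv_mul_cancel₀ hx, one_mul]

theorem Ap.of_det {P : F[X]} (hP : Irreducible P) (M : Matrix (Fin 3) (Fin 3) (RatFunc F))
    (hM : M.det = 1) : Ap hP M := by
  refine Matrix.diagonal_transvection_induction (Ap hP) M ?_ ?_ (fun A B => Ap.mul)
  · intro D hD
    rw [hM, det_diagonal, Fin.prod_univ_three] at hD
    have h1 : D = ![D 0, D 1, D 2] := by
      ext i
      fin_cases i <;> rfl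
    rw [h1, diag_eq _ _ _ hD]
    have h01 : (0 : Fin 3) ≠ 1 := by decide
    have h10 : (1 : Fin 3) ≠ 0 := by decide
    have h12 : (1 : Fin 3) ≠ 2 := by decide
    have h21 : (2 : Fin 3) ≠ 1 := by decide
    exact ((((Ap.transv hP _ _ h01 _).mul (Ap.transv hP _ _ h10 _)).mul
      (Ap.transv hP _ _ h01 _)).mul
      (((Ap.transv hP _ _ h01 _).mul (Ap.transv hP _ _ h10 _)).mul (Ap.transv hP _ _ h01 _))).mul
      ((((Ap.transv hP _ _ h12 _).mul (Ap.transv hP _ _ h21 _)).mul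
      (Ap.transv hP _ _ h12 _)).mul
      (((Ap.transv hP _ _ h12 _).mul (Ap.transv hP _ _ h21 _)).mul (Ap.transv hP _ _ h12 _)))
  · intro t
    exact Ap.transv hP _ _ t.hij _

theorem GI.mul {Q : F[X]} (hQ : Irreducible Q) {A B : Matrix (Fin 3) (Fin 3) (RatFunc F)}
    (hA : GI (IP Q) A) (hB : GI (IP Q) B) : GI (IP Q) (A * B) := by
  refine ⟨fun i j => ?_, ?_, ?_, ?_⟩
  · show (A * B) i j ∈ OO hQ
    rw [mul_apply]
    exact sum_mem fun k _ => mul_mem (show A i k ∈ OO hQ from hA.1 i k)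
      (show B k j ∈ OO hQ from hB.1 k j)
  · rw [det_mul]
    exact mul_ne_zero hA.2.1 hB.2.1
  · show (A * B).det ∈ OO hQ
    rw [det_mul]
    exact mul_mem (show A.det ∈ OO hQ from hA.2.2.1) (show B.det ∈ OO hQ from hB.2.2.1)
  · show ((A * B).det)⁻¹ ∈ OO hQ
    rw [det_mul, mul_inv]
    exact mul_mem (show A.det⁻¹ ∈ OO hQ from hA.2.2.2) (show B.det⁻¹ ∈ OO hQ from hB.2.2.2)

/-- One prime. -/
theorem single_prime {P : F[X]} (hP : Irreducible P) (M : Matrix (Fin 3) (Fin 3) (RatFunc F))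
    (hM : M.det ≠ 0) :
    ∃ h : Matrix (Fin 3) (Fin 3) (RatFunc F), h.det ≠ 0 ∧ (∃ κ, GI (IP P) κ ∧ h = M * κ) ∧
      ∀ Q : F[X], Irreducible Q → ¬ Q ∣ P → GI (IP Q) h := by
  have hP0 := ne_zero' hP
  set π := algebraMap F[X] (RatFunc F) P with hπ
  obtain ⟨n, u, hd, hu0, hu1, hu2⟩ := exists_unit hP M.det hM
  rw [← hπ] at hd
  set M1 : Matrix (Fin 3) (Fin 3) (RatFunc F) := M * diagonal ![1, 1, M.det⁻¹] with hM1
  have hdetM1 : M1.det = 1 := by
    rw [hM1, det_mul, det_diagonal, Fin.prod_univ_three]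
    simp [hM]
  have hMM1 : M = M1 * diagonal ![1, 1, M.det] := by
    rw [hM1, Matrix.mul_assoc, diagonal_mul_diagonal]
    have : (fun i => (![1, 1, M.det⁻¹] : Fin 3 → RatFunc F) i * ![1, 1, M.det] i) = 1 := by
      ext i
      fin_cases i <;> simp [hM]
    rw [this]
    have h2 : (diagonal (1 : Fin 3 → RatFunc F)) = 1 := diagonal_one
    rw [h2, Matrix.mul_one]
  obtain ⟨c, hc⟩ := bound hP (M1⁻¹)
  rw [← hπ] at hc
  obtain ⟨M1', h1, h2, h3⟩ := Ap.of_det hP M1 hdetM1 (n.natAbs + c)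
  set D : Matrix (Fin 3) (Fin 3) (RatFunc F) := diagonal ![1, 1, π ^ n] with hD
  have hDdet : D.det = π ^ n := by
    rw [hD, det_diagonal, Fin.prod_univ_three]
    simp
  have hRR : ∀ i j, RR P ((M1' * D) i j) := by
    intro i j
    rw [hD, mul_diagonal]
    refine RR.mul hP (h1 i j) ?_
    fin_cases j
    · simpa using RR.pol P 1
    · simpa using RR.pol P 1
    · exact RR.zpow n
  refine ⟨M1' * D, ?_, ⟨M⁻¹ * (M1' * D), ?_, ?_⟩, ?_⟩
  · rw [det_mul, h2, hDdet, one_mul]
    exact zpow_ne_zero _ hP0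
  · have hdk : (M⁻¹ * (M1' * D)).det = u⁻¹ := by
      rw [det_mul, det_mul, h2, hDdet, one_mul, det_nonsing_inv, Ring.inverse_eq_inv', hd, mul_inv,
        mul_comm (π ^ n)⁻¹, mul_assoc, inv_mul_cancel₀ (zpow_ne_zero _ hP0), mul_one]
    refine ⟨?_, ?_⟩
    · intro i j
      have hinv : M⁻¹ = diagonal ![1, 1, M.det⁻¹] * M1⁻¹ := by
        apply Matrix.inv_eq_left_inv
        calc diagonal ![1, 1, M.det⁻¹] * M1⁻¹ * M
            = diagonal ![1, 1, M.det⁻¹] * M1⁻¹ * (M1 * diagonal ![1, 1, M.det]) := by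
              rw [← hMM1]
          _ = 1 := by
              rw [Matrix.mul_assoc, ← Matrix.mul_assoc M1⁻¹,
                Matrix.nonsing_inv_mul _ (by rw [hdetM1]; exact isUnit_one), Matrix.one_mul,
                diagonal_mul_diagonal]
              have : (fun i => (![1, 1, M.det⁻¹] : Fin 3 → RatFunc F) i * ![1, 1, M.det] i) =
                  1 := by
                ext i
                fin_cases i <;> simp [hM]
              rw [this]
              exact diagonal_one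
      have h4 : (M⁻¹ * (M1' * D)) i j = (![1, 1, M.det⁻¹] : Fin 3 → RatFunc F) i *
          ((1 : Matrix (Fin 3) (Fin 3) (RatFunc F)) i j +
            (M1⁻¹ * (M1' - M1)) i j) * (![1, 1, π ^ n] : Fin 3 → RatFunc F) j := by
        rw [hinv, hD, ← Matrix.mul_assoc, mul_diagonal, Matrix.mul_assoc, diagonal_mul]
        congr 2
        rw [Matrix.mul_sub, Matrix.nonsing_inv_mul _ (by rw [hdetM1]; exact isUnit_one),
          Matrix.sub_apply]
        ring
      have h5 : dv hP n.natAbs ((M1⁻¹ * (M1' - M1)) i j) := by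
        rw [mul_apply]
        refine dv.sum _ _ fun k _ => ?_
        rw [mul_comm]
        exact dv.mul_bd (h3 k j) (hc c le_rfl i k)
      -- the entries
      have h6 : ∀ m : ℤ, m.natAbs ≤ n.natAbs →
          (M1⁻¹ * (M1' - M1)) i j * π ^ m ∈ OO hP := by
        intro m hm
        have h7 : (M1⁻¹ * (M1' - M1)) i j * π ^ m =
            (M1⁻¹ * (M1' - M1)) i j / π ^ n.natAbs * π ^ ((n.natAbs : ℤ) + m).toNat := by
          rw [← zpow_natCast π ((n.natAbs : ℤ) + m).toNat, Int.toNat_of_nonneg (by omega),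
            zpow_add₀ hP0, zpow_natCast]
          field_simp
        rw [h7]
        exact mul_mem h5 (pow_mem (pol_mem hP P) _)
      show (M⁻¹ * (M1' * D)) i j ∈ OO hP
      rw [h4]
      have h8 : (1 : Matrix (Fin 3) (Fin 3) (RatFunc F)) i j ∈ OO hP := by
        rw [Matrix.one_apply]
        split_ifs
        · exact one_mem _
        · exact zero_mem _
      have h9 := h6 0 (by simp)
      rw [zpow_zero, mul_one] at h9
      have hdinv : M.det⁻¹ = π ^ (-n) * u⁻¹ := by
        rw [hd, mul_inv, _root_.zpow_neg]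
      have hzz : π ^ (-n) * π ^ n = 1 := by
        rw [_root_.zpow_neg, inv_mul_cancel₀ (zpow_ne_zero _ hP0)]
      generalize hE : (M1⁻¹ * (M1' - M1)) i j = E at *
      have hE2 := h6 n le_rfl
      have hE3 := h6 (-n) (by simp)
      have hcase : ∀ k : Fin 3, k = 2 ∨ ((![1, 1, M.det⁻¹] : Fin 3 → RatFunc F) k = 1 ∧
          (![1, 1, π ^ n] : Fin 3 → RatFunc F) k = 1 ∧ k ≠ 2) := by
        intro k
        fin_cases k
        · right; exact ⟨rfl, rfl, by decide⟩
        · right; exact ⟨rfl, rfl, by decide⟩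
        · left; rfl
      rcases hcase i with hi | ⟨hi, -, hi2⟩ <;> rcases hcase j with hj | ⟨-, hj, hj2⟩
      · subst hi; subst hj
        have : (![1, 1, M.det⁻¹] : Fin 3 → RatFunc F) 2 *
            ((1 : Matrix (Fin 3) (Fin 3) (RatFunc F)) 2 2 + E) *
            (![1, 1, π ^ n] : Fin 3 → RatFunc F) 2 = u⁻¹ * (1 + E) := by
          show M.det⁻¹ * ((1 : Matrix (Fin 3) (Fin 3) (RatFunc F)) 2 2 + E) * π ^ n = _
          rw [Matrix.one_apply_eq, hdinv]
          linear_combination u⁻¹ * (1 + E) * hzz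
        rw [this]
        exact mul_mem hu2 (add_mem (one_mem _) h9)
      · subst hi
        rw [Matrix.one_apply_ne (Ne.symm hj2), hj, mul_one, zero_add]
        have : (![1, 1, M.det⁻¹] : Fin 3 → RatFunc F) 2 * E = u⁻¹ * (E * π ^ (-n)) := by
          show M.det⁻¹ * E = _
          rw [hdinv]
          ring
        rw [this]
        exact mul_mem hu2 hE3
      · subst hj
        rw [Matrix.one_apply_ne hi2, hi, one_mul, zero_add]
        exact hE2
      · rw [hi, hj, one_mul, mul_one]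
        exact add_mem h8 h9
    · rw [hdk]
      refine ⟨inv_ne_zero hu0, hu2, ?_⟩
      rw [inv_inv]
      exact hu1
  · rw [← Matrix.mul_assoc, Matrix.mul_nonsing_inv _ (isUnit_iff_ne_zero.2 hM), Matrix.one_mul]
  · intro Q hQ hQP
    refine ⟨fun i j => RR.mem hQ hQP (hRR i j), ?_⟩
    rw [det_mul, h2, hDdet, one_mul]
    refine ⟨zpow_ne_zero _ hP0, RR.mem hQ hQP (RR.zpow n), ?_⟩
    rw [← _root_.zpow_neg]
    exact RR.mem hQ hQP (RR.zpow (-n))

end GLU

theorem glu_thm : GLUStmt := by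
  intro F _ S
  classical
  induction S using Finset.induction_on with
  | empty =>
    intro _ gP _
    refine ⟨1, by rw [det_one]; exact one_ne_zero, fun P hP => absurd hP (Finset.notMem_empty P),
      fun P _ hPi _ => ⟨fun i j => ?_, ?_, ?_, ?_⟩⟩
    · show (1 : Matrix (Fin 3) (Fin 3) (RatFunc F)) i j ∈ GLU.OO hPi
      rw [Matrix.one_apply]
      split_ifs
      · exact one_mem _
      · exact zero_mem _
    · rw [det_one]; exact one_ne_zero
    · show (1 : Matrix (Fin 3) (Fin 3) (RatFunc F)).det ∈ GLU.OO hPi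
      rw [det_one]; exact one_mem _
    · show ((1 : Matrix (Fin 3) (Fin 3) (RatFunc F)).det)⁻¹ ∈ GLU.OO hPi
      rw [det_one, inv_one]; exact one_mem _
  | insert P S hPS ih =>
    intro hS gP hgP
    obtain ⟨g, hg, hg1, hg2⟩ := ih (fun Q hQ => hS Q (Finset.mem_insert_of_mem hQ)) gP
      (fun Q hQ => hgP Q (Finset.mem_insert_of_mem hQ))
    have hPi := (hS P (Finset.mem_insert_self P S)).2
    have hPm := (hS P (Finset.mem_insert_self P S)).1
    have hgu : IsUnit g.det := isUnit_iff_ne_zero.2 hg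
    have hPdet := hgP P (Finset.mem_insert_self P S)
    obtain ⟨h, hh, ⟨κ, hκ, hκ2⟩, hh2⟩ := GLU.single_prime hPi (g⁻¹ * gP P) (by
      rw [det_mul, det_nonsing_inv, Ring.inverse_eq_inv']
      exact mul_ne_zero (inv_ne_zero hg) hPdet)
    have hnd : ∀ Q : F[X], Q.Monic → Irreducible Q → Q ≠ P → ¬ Q ∣ P := by
      intro Q hQm hQ hne hd
      exact hne (eq_of_monic_of_associated hQm hPm (hQ.associated_of_dvd hPi hd))
    refine ⟨g * h, ?_, ?_, ?_⟩
    · rw [det_mul]
      exact mul_ne_zero hg hh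
    · intro Q hQ
      rcases Finset.mem_insert.1 hQ with hQP | hQS
      · subst hQP
        refine ⟨κ, hκ, ?_⟩
        rw [hκ2, Matrix.mul_assoc, Matrix.mul_nonsing_inv_cancel_left _ _ hgu]
      · have hne : Q ≠ P := by
          rintro rfl
          exact hPS hQS
        obtain ⟨κ', hκ', hκ'2⟩ := hg1 Q hQS
        have hQ2 := hS Q hQ
        refine ⟨κ' * h, GLU.GI.mul hQ2.2 hκ' (hh2 Q hQ2.2 (hnd Q hQ2.1 hQ2.2 hne)), ?_⟩
        rw [← Matrix.mul_assoc, ← hκ'2]
    · intro Q hQm hQ hQS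
      rw [Finset.mem_insert, not_or] at hQS
      exact GLU.GI.mul hQ (hg2 Q hQm hQ hQS.2) (hh2 Q hQ (hnd Q hQm hQ hQS.1))

end Pool.AVS
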